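import Pool.Agent.NGM.StmtsK

/-!
# MP_c602ad_al, squad NGM, row CHI (helper44)
-/

set_option autoImplicit false

namespace Pool.Agent.NGM.H44

open scoped Pointwise Classical
open Filter Topology Pool.Agent.NGM

universe u

section

variable {Q : Type u} [Group Q] {K : Finset Q}

/-- translation of a sum of a function with support in `K ^ a` -/
theorem sum_translate (A B : Finset Q) (g : Q) (hAB : ∀ z ∈ A, g * z ∈ B) (ψ : Q → ℝ)
    (hψ : ∀ z, z ∉ A → ψ z = 0) (H : Q → ℝ) :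
    ∑ x ∈ B, ψ (g⁻¹ * x) * H x = ∑ z ∈ A, ψ z * H (g * z) := by
  have h1 : ∑ x ∈ A.image (fun z => g * z), ψ (g⁻¹ * x) * H x
      = ∑ x ∈ B, ψ (g⁻¹ * x) * H x := by
    apply Finset.sum_subset
    · intro x hx
      obtain ⟨z, hz, rfl⟩ := Finset.mem_image.mp hx
      exact hAB z hz
    · intro x _ hx
      have : g⁻¹ * x ∉ A := by
        intro h
        apply hx
        refine Finset.mem_image.mpr ⟨g⁻¹ * x, h, ?_⟩
        simp
      rw [hψ _ this, zero_mul]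
  rw [← h1, Finset.sum_image]
  · apply Finset.sum_congr rfl
    intro z _
    rw [inv_mul_cancel_left]
  · intro a _ b _ h
    exact mul_left_cancel h

theorem pow_sub_mem {s t z : Q} {n : ℕ} (hs : s ∈ K) (ht : t ∈ K) (hz : z ∈ K ^ (2 * n)) :
    s * t * z ∈ K ^ (2 * (n + 1)) := by
  have e : K ^ (2 * (n + 1)) = K * K * K ^ (2 * n) := by
    rw [show 2 * (n + 1) = 2 + 2 * n by ring, pow_add, pow_two]
  rw [e]
  exact Finset.mul_mem_mul (Finset.mul_mem_mul hs ht) hz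

end

theorem chi (hwk : WkStmt.{u}) (hchn : ChnStmt.{u}) : ChiStmt.{u} := by
  intro Q _ K hK n
  have hKne : K.Nonempty := ⟨1, hK.one⟩
  have hcard : 0 < K.card := hKne.card_pos
  have hcR : (0 : ℝ) < (K.card : ℝ) := by exact_mod_cast hcard
  have hc1 : (1 : ℝ) ≤ (K.card : ℝ) := by exact_mod_cast hcard
  obtain ⟨w0, wsupp, winv, wform, wsum, wconv⟩ := hwk Q K hK (2 * n)
  obtain ⟨v0, vsupp, vinv, vform, vsum, vconv⟩ := hwk Q K hK (2 * (n + 1))
  obtain ⟨-, -, -, uform, -, -⟩ := hwk Q K hK 2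
  -- the index set
  have : Nonempty ({x // x ∈ K} × {x // x ∈ K}) := ⟨(⟨1, hK.one⟩, ⟨1, hK.one⟩)⟩
  have hJ : (Fintype.card ({x // x ∈ K} × {x // x ∈ K}) : ℝ) = (K.card : ℝ) ^ 2 := by
    rw [Fintype.card_prod, Fintype.card_coe]
    push_cast
    ring
  set q : ({x // x ∈ K} × {x // x ∈ K}) → Q → ℝ :=
    fun j x => wk K (2 * n) ((j.1.1 * j.2.1)⁻¹ * x) with hq
  have hq0 : ∀ j x, 0 ≤ q j x := fun j x => w0 _
  have hwz : ∀ z, z ∉ K ^ (2 * n) → wk K (2 * n) z = 0 := by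
    intro z hz
    by_contra h
    exact hz (wsupp z h)
  have htr : ∀ (j : {x // x ∈ K} × {x // x ∈ K}) (H : Q → ℝ),
      ∑ x ∈ K ^ (2 * (n + 1)), q j x * H x
        = ∑ z ∈ K ^ (2 * n), wk K (2 * n) z * H (j.1.1 * j.2.1 * z) := by
    intro j H
    exact sum_translate (K ^ (2 * n)) (K ^ (2 * (n + 1))) (j.1.1 * j.2.1)
      (fun z hz => pow_sub_mem j.1.2 j.2.2 hz) (wk K (2 * n)) hwz H
  have hqs : ∀ j, ∑ x ∈ K ^ (2 * (n + 1)), q j x = 1 := by
    intro j
    have := htr j (fun _ => 1)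
    simp only [mul_one] at this
    rw [this, wsum]
  -- the average
  have hm : ∀ x, wk K (2 * (n + 1)) x
      = (Fintype.card ({x // x ∈ K} × {x // x ∈ K}) : ℝ)⁻¹ * ∑ j, q j x := by
    intro x
    have h1 := wconv 2 x
    have h2 := uform (fun z => wk K (2 * n) (z⁻¹ * x)) 1
    simp only [one_mul] at h2
    rw [show 2 * (n + 1) = 2 + 2 * n by ring, h1, ← h2]
    rw [Function.iterate_succ_apply, Function.iterate_one]
    simp only [av, one_mul]
    rw [hJ, Fintype.sum_prod_type, hq]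
    simp only
    rw [← Finset.mul_sum, ← mul_assoc, ← Finset.sum_coe_sort K]
    congr 1
    · rw [pow_two, mul_inv]
    · apply Finset.sum_congr rfl
      intro s _
      rw [← Finset.sum_coe_sort K]
  have hchi := hchn Q ({x // x ∈ K} × {x // x ∈ K}) (K ^ (2 * (n + 1))) q (wk K (2 * (n + 1)))
    hq0 hqs hm
  have hen : ∀ j, ∑ x ∈ K ^ (2 * (n + 1)), Real.negMulLog (q j x) = en K n := by
    intro j
    have h1 := sum_translate (K ^ (2 * n)) (K ^ (2 * (n + 1))) (j.1.1 * j.2.1)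
      (fun z hz => pow_sub_mem j.1.2 j.2.2 hz) (fun z => Real.negMulLog (wk K (2 * n) z))
      (fun z hz => by rw [hwz z hz, Real.negMulLog_zero]) (fun _ => 1)
    simp only [mul_one] at h1
    exact h1
  have hen1 : ∑ x ∈ K ^ (2 * (n + 1)), Real.negMulLog (wk K (2 * (n + 1)) x) = en K (n + 1) := rfl
  rw [hen1, Finset.sum_congr rfl (fun j _ => hen j), Finset.sum_const, Finset.card_univ,
    nsmul_eq_mul, hJ, inv_mul_cancel_left₀ (by positivity)] at hchi
  have hterm : ∀ j, 0 ≤ ∑ x ∈ K ^ (2 * (n + 1)),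
      (q j x - wk K (2 * (n + 1)) x) ^ 2 / (q j x + wk K (2 * (n + 1)) x) := by
    intro j
    apply Finset.sum_nonneg
    intro x _
    exact div_nonneg (sq_nonneg _) (add_nonneg (hq0 j x) (v0 x))
  have hone : ∀ j, ∑ x ∈ K ^ (2 * (n + 1)),
      (q j x - wk K (2 * (n + 1)) x) ^ 2 / (q j x + wk K (2 * (n + 1)) x)
        ≤ 2 * (K.card : ℝ) ^ 2 * (en K (n + 1) - en K n) := by
    intro j
    have h1 := Finset.single_le_sum (f := fun j => ∑ x ∈ K ^ (2 * (n + 1)),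
      (q j x - wk K (2 * (n + 1)) x) ^ 2 / (q j x + wk K (2 * (n + 1)) x))
      (fun i _ => hterm i) (Finset.mem_univ j)
    have h2 : ∑ j, ∑ x ∈ K ^ (2 * (n + 1)),
        (q j x - wk K (2 * (n + 1)) x) ^ 2 / (q j x + wk K (2 * (n + 1)) x)
          ≤ (K.card : ℝ) ^ 2 * (2 * (en K (n + 1) - en K n)) := by
      have h3 := mul_le_mul_of_nonneg_left hchi (show (0 : ℝ) ≤ (K.card : ℝ) ^ 2 by positivity)
      rwa [mul_inv_cancel_left₀ (by positivity)] at h3
    linarith [h1, h2]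
  have hDel : en K n ≤ en K (n + 1) := by
    have j0 : {x // x ∈ K} × {x // x ∈ K} := (⟨1, hK.one⟩, ⟨1, hK.one⟩)
    have h1 := (hterm j0).trans (hone j0)
    have h2 : 0 < 2 * (K.card : ℝ) ^ 2 := by positivity
    have h3 : 0 ≤ en K (n + 1) - en K n := by
      by_contra h
      have := mul_neg_of_pos_of_neg h2 (not_le.mp h)
      linarith
    linarith
  refine ⟨hDel, ?_⟩
  intro F s hs t ht
  set j : {x // x ∈ K} × {x // x ∈ K} := (⟨s, hs⟩, ⟨t, ht⟩) with hj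
  have e1 : (av K)^[2 * n] F (s * t) = ∑ x ∈ K ^ (2 * (n + 1)), q j x * F x := by
    rw [wform F (s * t), htr j F]
  have e2 : (av K)^[2 * (n + 1)] F 1
      = ∑ x ∈ K ^ (2 * (n + 1)), wk K (2 * (n + 1)) x * F x := by
    rw [vform F 1]
    simp only [one_mul]
  have e3 : (av K)^[2 * (n + 1)] (fun x => F x ^ 2) 1
      = ∑ x ∈ K ^ (2 * (n + 1)), wk K (2 * (n + 1)) x * F x ^ 2 := by
    rw [vform (fun x => F x ^ 2) 1]
    simp only [one_mul]
  have hqm : ∀ x, q j x + wk K (2 * (n + 1)) x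
      ≤ 2 * (K.card : ℝ) ^ 2 * wk K (2 * (n + 1)) x := by
    intro x
    have h1 : q j x ≤ (K.card : ℝ) ^ 2 * wk K (2 * (n + 1)) x := by
      rw [hm x, hJ, mul_inv_cancel_left₀ (by positivity)]
      exact Finset.single_le_sum (f := fun j => q j x) (fun i _ => hq0 i x) (Finset.mem_univ j)
    have h2 : wk K (2 * (n + 1)) x ≤ (K.card : ℝ) ^ 2 * wk K (2 * (n + 1)) x := by
      have h3 : (1 : ℝ) ≤ (K.card : ℝ) ^ 2 := one_le_pow₀ hc1
      nlinarith [v0 x]
    linarith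
  have hCS : (∑ x ∈ K ^ (2 * (n + 1)), (q j x - wk K (2 * (n + 1)) x) * F x) ^ 2
      ≤ (∑ x ∈ K ^ (2 * (n + 1)),
          (q j x - wk K (2 * (n + 1)) x) ^ 2 / (q j x + wk K (2 * (n + 1)) x))
        * ∑ x ∈ K ^ (2 * (n + 1)), (q j x + wk K (2 * (n + 1)) x) * F x ^ 2 := by
    apply Finset.sum_sq_le_sum_mul_sum_of_sq_le_mul
    · intro x _
      exact div_nonneg (sq_nonneg _) (add_nonneg (hq0 j x) (v0 x))
    · intro x _
      exact mul_nonneg (add_nonneg (hq0 j x) (v0 x)) (sq_nonneg _)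
    · intro x _
      apply le_of_eq
      by_cases h : q j x + wk K (2 * (n + 1)) x = 0
      · have h1 : q j x = 0 := by linarith [hq0 j x, v0 x]
        have h2 : wk K (2 * (n + 1)) x = 0 := by linarith [hq0 j x, v0 x]
        rw [h1, h2]
        simp
      · field_simp
  have hB : ∑ x ∈ K ^ (2 * (n + 1)), (q j x + wk K (2 * (n + 1)) x) * F x ^ 2
      ≤ 2 * (K.card : ℝ) ^ 2 * ∑ x ∈ K ^ (2 * (n + 1)), wk K (2 * (n + 1)) x * F x ^ 2 := by
    rw [Finset.mul_sum]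
    apply Finset.sum_le_sum
    intro x _
    rw [← mul_assoc]
    exact mul_le_mul_of_nonneg_right (hqm x) (sq_nonneg _)
  have hBn : 0 ≤ ∑ x ∈ K ^ (2 * (n + 1)), (q j x + wk K (2 * (n + 1)) x) * F x ^ 2 :=
    Finset.sum_nonneg fun x _ => mul_nonneg (add_nonneg (hq0 j x) (v0 x)) (sq_nonneg _)
  have hDn : 0 ≤ 2 * (K.card : ℝ) ^ 2 * (en K (n + 1) - en K n) :=
    mul_nonneg (by positivity) (by linarith)
  rw [e1, e2, e3, ← Finset.sum_sub_distrib]
  have e4 : ∀ x ∈ K ^ (2 * (n + 1)), q j x * F x - wk K (2 * (n + 1)) x * F x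
      = (q j x - wk K (2 * (n + 1)) x) * F x := fun x _ => by ring
  rw [Finset.sum_congr rfl e4]
  calc (∑ x ∈ K ^ (2 * (n + 1)), (q j x - wk K (2 * (n + 1)) x) * F x) ^ 2
      ≤ _ := hCS
    _ ≤ (2 * (K.card : ℝ) ^ 2 * (en K (n + 1) - en K n)) *
        (2 * (K.card : ℝ) ^ 2 * ∑ x ∈ K ^ (2 * (n + 1)), wk K (2 * (n + 1)) x * F x ^ 2) :=
        mul_le_mul (hone j) hB hBn hDn
    _ = _ := by ring

end Pool.Agent.NGM.H44
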